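import Pool.Agent.TH286.CR.Three

set_option autoImplicit false

/-!
# The optimal constant comparing biplanar and ordinary crossing numbers is at least 3/20

The graphs are bipartite ladders: `2 (D + 5)` hubs on a line and `2 (D + 1) s` vertices of degree
ten, each joined to five consecutive hubs on either side of the middle.
-/

open Pool.Agent.Helper770.Crossing

/-- Every constant `c` with `cr₂(G) ≤ c · cr(G)` for all finite graphs `G` is at least `3 / 20`. -/
theorem Pool.Agent.Results.MP_c0cec8_co.ThreeTwentieths.result (c : ℝ)
    (h : ∀ (V : Type) [Fintype V] (G : SimpleGraph V),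
      (biplanarCrossingNumber G : ℝ) ≤ c * (crossingNumber G : ℝ)) : 3 / 20 ≤ c :=
  Pool.Agent.TH286.CR.main3 c h
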